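import Mathlib

set_option autoImplicit false

/-!
# Bases of polynomial solutions modulo `p` of small total degree

Let `L` be an operator of order `n` with polynomial coefficients. Polynomial solutions of degree less
than `p` of the reduction modulo `p` are linearly independent over the field of constants `F_p(x ^ p)` if
and only if they are linearly independent over `F_p`. If the reduction has a basis of polynomial
solutions, then after an exchange of the basis the degrees are different; they are the zeros modulo `p`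
of the indicial polynomial at infinity, so that the sum of the degrees is a certain rational number
`s = u / v` modulo `p`. We show that the open implication of Grothendieck's conjecture holds if the sum
of the degrees is less than `(p - |u|) / v` for infinitely many primes: the sum of the degrees is then
exactly `s`, and the solutions can be lifted to polynomial solutions over `ℚ`, by duality. The same holds
if the sum of the degrees is at most `(1 / 2 - ε) p` for almost all primes (Dirichlet's theorem).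
-/

namespace Pool.Agent.Results.MP_aa40d3_nt.SmallDegreeBases

open Polynomial Finset

/-- The value of the operator `∑ b k ∂ ^ k` (reduced to the commutative ring `R`) at the polynomial
`y` with coefficients in `R`. -/
noncomputable def app {n : ℕ} (R : Type) [CommRing R] (b : Fin (n + 1) → ℤ[X]) (y : R[X]) : R[X] :=
  ∑ k : Fin (n + 1), (b k).map (Int.castRingHom R) * derivative^[(k : ℕ)] y

section lin

variable {n : ℕ} {R : Type} [CommRing R] (b : Fin (n + 1) → ℤ[X])

lemma app_add (y z : R[X]) : app R b (y + z) = app R b y + app R b z := by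
  simp only [app, iterate_map_add, mul_add, sum_add_distrib]

lemma app_smul (c : R) (y : R[X]) : app R b (c • y) = c • app R b y := by
  simp only [app, iterate_derivative_smul, mul_smul_comm, smul_sum]

/-- `app` as a linear map. -/
noncomputable def appL : R[X] →ₗ[R] R[X] where
  toFun := app R b
  map_add' := app_add b
  map_smul' := app_smul b

lemma appL_apply (y : R[X]) : appL b y = app R b y := rfl

lemma app_map {S : Type} [CommRing S] (f : R →+* S) (y : R[X]) :
    app S b (y.map f) = (app R b y).map f := by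
  simp only [app, Polynomial.map_sum, Polynomial.map_mul, iterate_derivative_map, Polynomial.map_map]
  congr 1
  ext k
  congr 3
  exact RingHom.ext_int _ _

end lin

section indicial

variable {n : ℕ} (b : Fin (n + 1) → ℤ[X])

/-- The number `E`: the maximum of `deg (b k) + n - k`. -/
noncomputable def EE : ℕ := by
  classical
  exact (univ.filter fun k => b k ≠ 0).sup fun k => (b k).natDegree + (n - (k : ℕ))

/-- The coefficients of the indicial polynomial at infinity. -/
noncomputable def cc (k : Fin (n + 1)) : ℤ := (b k * X ^ (n - (k : ℕ))).coeff (EE b)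

lemma natDegree_le_EE (k : Fin (n + 1)) (hk : b k ≠ 0) : (b k).natDegree + (n - (k : ℕ)) ≤ EE b := by
  classical
  unfold EE
  exact Finset.le_sup (f := fun k : Fin (n + 1) => (b k).natDegree + (n - (k : ℕ)))
    (by simpa using hk)

lemma natDegree_mul_le_EE (k : Fin (n + 1)) : (b k * X ^ (n - (k : ℕ))).natDegree ≤ EE b := by
  by_cases hk : b k = 0
  · simp [hk]
  · refine le_trans ?_ (natDegree_le_EE b k hk)
    refine le_trans natDegree_mul_le ?_
    simp

lemma exists_cc_ne_zero (hb : b (Fin.last n) ≠ 0) : ∃ k, cc b k ≠ 0 := by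
  classical
  have hne : (univ.filter fun k => b k ≠ 0).Nonempty := ⟨Fin.last n, by simpa using hb⟩
  obtain ⟨k, hk, hk2⟩ := Finset.exists_mem_eq_sup _ hne
    (fun k : Fin (n + 1) => (b k).natDegree + (n - (k : ℕ)))
  refine ⟨k, ?_⟩
  have h1 : EE b = (b k).natDegree + (n - (k : ℕ)) := by
    unfold EE
    exact hk2
  unfold cc
  rw [h1, coeff_mul_X_pow]
  simpa using hk

/-- The indicial polynomial at infinity. -/
noncomputable def II : ℤ[X] := ∑ k : Fin (n + 1), C (cc b k) * descPochhammer ℤ (k : ℕ)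

lemma coeff_X_pow_mul_iterate {R : Type} [CommRing R] (y : R[X]) (k d : ℕ) :
    (X ^ k * derivative^[k] y).coeff d = (d.descFactorial k : R) * y.coeff d := by
  rw [coeff_X_pow_mul']
  split_ifs with h
  · rw [coeff_iterate_derivative, Nat.sub_add_cancel h, nsmul_eq_mul]
  · rw [Nat.descFactorial_eq_zero_iff_lt.2 (not_le.1 h)]
    simp

lemma natDegree_X_pow_mul_iterate {R : Type} [CommRing R] (y : R[X]) (k : ℕ) :
    (X ^ k * derivative^[k] y).natDegree ≤ y.natDegree := by
  rw [natDegree_le_iff_coeff_eq_zero]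
  intro N hN
  rw [coeff_X_pow_mul_iterate, coeff_eq_zero_of_natDegree_lt hN, mul_zero]

lemma coeff_app {R : Type} [CommRing R] (y : R[X]) :
    (X ^ n * app R b y).coeff (EE b + y.natDegree) =
      ((II b).eval (y.natDegree : ℤ) : ℤ) * y.leadingCoeff := by
  have h1 : X ^ n * app R b y = ∑ k : Fin (n + 1),
      ((b k * X ^ (n - (k : ℕ))).map (Int.castRingHom R)) * (X ^ (k : ℕ) * derivative^[(k : ℕ)] y) := by
    unfold app
    rw [mul_sum]
    refine sum_congr rfl fun k _ => ?_
    have h2 : (X : R[X]) ^ n = X ^ (n - (k : ℕ)) * X ^ (k : ℕ) := by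
      rw [← pow_add, Nat.sub_add_cancel (Nat.lt_succ_iff.1 k.2)]
    rw [h2, Polynomial.map_mul, Polynomial.map_pow, map_X]
    ring
  rw [h1, finsetSum_coeff]
  unfold II
  rw [eval_finsetSum, Int.cast_sum, sum_mul]
  refine sum_congr rfl fun k _ => ?_
  rw [coeff_mul_add_eq_of_natDegree_le (le_trans natDegree_map_le (natDegree_mul_le_EE b k))
    (natDegree_X_pow_mul_iterate y k), coeff_X_pow_mul_iterate, coeff_map, eval_mul, eval_C]
  have h3 : (descPochhammer ℤ (k : ℕ)).eval ((y.natDegree : ℕ) : ℤ) =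
      ((y.natDegree.descFactorial (k : ℕ) : ℕ) : ℤ) := descPochhammer_eval_eq_descFactorial ℤ _ _
  rw [h3]
  simp only [cc, eq_intCast, Int.cast_mul, Int.cast_natCast, coeff_natDegree]
  ring

lemma indicial {p : ℕ} (hp : Fact p.Prime) (y : (ZMod p)[X]) (hy : y ≠ 0) (h : app (ZMod p) b y = 0) :
    ((II b).map (Int.castRingHom (ZMod p))).eval (y.natDegree : ZMod p) = 0 := by
  have h1 := coeff_app b y
  rw [h, mul_zero, coeff_zero] at h1
  have h2 : y.leadingCoeff ≠ 0 := leadingCoeff_ne_zero.2 hy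
  have h3 := (mul_eq_zero.1 h1.symm).resolve_right h2
  rw [← h3]
  have := Polynomial.eval_map (Int.castRingHom (ZMod p)) (p := II b) (y.natDegree : ZMod p)
  rw [this]
  have h4 : ((y.natDegree : ℕ) : ZMod p) = Int.castRingHom (ZMod p) (y.natDegree : ℤ) := by simp
  rw [h4, eval₂_at_apply]
  simp

end indicial

section poly

variable {m : ℕ} (b : Fin (m + 1 + 1) → ℤ[X])

lemma coeff_descPochhammer (m : ℕ) :
    (descPochhammer ℤ (m + 1)).coeff m = -∑ j ∈ range (m + 1), (j : ℤ) := by
  induction m with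
  | zero => simp
  | succ m ih =>
    rw [descPochhammer_succ_right, mul_sub, coeff_sub, coeff_mul_X, ih, sum_range_succ _ (m + 1)]
    have h1 : (descPochhammer ℤ (m + 1)).coeff (m + 1) = 1 := by
      have h := monic_descPochhammer ℤ (m + 1)
      have h2 := descPochhammer_natDegree (R := ℤ) (m + 1)
      have h3 := h.coeff_natDegree
      rwa [h2] at h3
    have h4 : (((m + 1 : ℕ) : ℤ[X])) = C ((m + 1 : ℕ) : ℤ) := by simp
    rw [h4, coeff_mul_C, h1]
    ring

lemma natDegree_II {n : ℕ} (b : Fin (n + 1) → ℤ[X]) : (II b).natDegree ≤ n := by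
  unfold II
  refine natDegree_sum_le_of_forall_le _ _ fun k _ => ?_
  refine le_trans (natDegree_C_mul_le _ _) ?_
  rw [descPochhammer_natDegree]
  exact Nat.lt_succ_iff.1 k.2

lemma coeff_II_top {n : ℕ} (b : Fin (n + 1) → ℤ[X]) : (II b).coeff n = cc b (Fin.last n) := by
  unfold II
  rw [finsetSum_coeff, Fin.sum_univ_castSucc]
  rw [sum_eq_zero, zero_add]
  · rw [coeff_C_mul]
    have h := monic_descPochhammer ℤ n
    have h2 := descPochhammer_natDegree (R := ℤ) n
    have h3 := h.coeff_natDegree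
    rw [h2] at h3
    simp [h3]
  · intro k _
    rw [coeff_C_mul, coeff_eq_zero_of_natDegree_lt, mul_zero]
    rw [descPochhammer_natDegree]
    simp

lemma coeff_II_next : (II b).coeff m =
    cc b (Fin.last m).castSucc - cc b (Fin.last (m + 1)) * ∑ j ∈ range (m + 1), (j : ℤ) := by
  unfold II
  rw [finsetSum_coeff, Fin.sum_univ_castSucc, Fin.sum_univ_castSucc]
  rw [sum_eq_zero, zero_add]
  · rw [coeff_C_mul, coeff_C_mul]
    have h := monic_descPochhammer ℤ m
    have h2 := descPochhammer_natDegree (R := ℤ) m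
    have h3 := h.coeff_natDegree
    rw [h2] at h3
    have h4 := coeff_descPochhammer m
    simp only [Fin.val_castSucc, Fin.val_last, h3, h4]
    ring
  · intro k _
    rw [coeff_C_mul, coeff_eq_zero_of_natDegree_lt, mul_zero]
    rw [descPochhammer_natDegree]
    simp

lemma II_ne_zero {n : ℕ} (b : Fin (n + 1) → ℤ[X]) (hb : b (Fin.last n) ≠ 0) : II b ≠ 0 := by
  intro h
  obtain ⟨k, hk⟩ := exists_cc_ne_zero b hb
  have h1 : ∀ j : ℕ, ∀ hj : j < n + 1, cc b ⟨j, hj⟩ = 0 := by
    intro j
    induction j using Nat.strong_induction_on with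
    | _ j ih =>
      intro hj
      have h2 : (II b).eval (j : ℤ) = 0 := by rw [h]; simp
      unfold II at h2
      rw [eval_finsetSum, sum_eq_single ⟨j, hj⟩] at h2
      · rw [eval_mul, eval_C, descPochhammer_eval_eq_descFactorial] at h2
        rcases mul_eq_zero.1 h2 with h3 | h3
        · exact h3
        · rw [Nat.descFactorial_self] at h3
          exact absurd h3 (by exact_mod_cast Nat.factorial_ne_zero j)
      · intro i _ hi
        rw [eval_mul, eval_C, descPochhammer_eval_eq_descFactorial]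
        rcases lt_trichotomy (i : ℕ) j with h4 | h4 | h4
        · rw [show i = ⟨(i : ℕ), i.2⟩ from rfl, ih _ h4 i.2, zero_mul]
        · exact absurd (Fin.ext h4) hi
        · rw [Nat.descFactorial_eq_zero_iff_lt.2 h4]
          simp
      · intro h4
        exact absurd (mem_univ _) h4
  exact hk (h1 k k.2)

/-- The congruence for the sum of the degrees. -/
lemma key {p : ℕ} (hp : Fact p.Prime) (hII : ¬ (p : ℤ) ∣ (II b).leadingCoeff)
    (d : Fin (m + 1) → ℕ) (hd : Function.Injective d) (hlt : ∀ i, d i < p)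
    (hroot : ∀ i, ((II b).map (Int.castRingHom (ZMod p))).eval (d i : ZMod p) = 0) :
    ¬ (p : ℤ) ∣ cc b (Fin.last (m + 1)) ∧
      (p : ℤ) ∣ cc b (Fin.last (m + 1)) * ((∑ i, d i : ℕ) : ℤ) + cc b (Fin.last m).castSucc -
        cc b (Fin.last (m + 1)) * ∑ j ∈ range (m + 1), (j : ℤ) := by
  have hinj : Function.Injective fun i => (d i : ZMod p) := by
    intro i j hij
    apply hd
    have h1 : (d i : ZMod p) = d j := hij
    have h2 := congrArg ZMod.val h1
    rwa [ZMod.val_natCast_of_lt (hlt i), ZMod.val_natCast_of_lt (hlt j)] at h2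
  set q := (II b).map (Int.castRingHom (ZMod p)) with hq
  have hqdeg : q.natDegree ≤ m + 1 := le_trans natDegree_map_le (natDegree_II b)
  have hq0 : q ≠ 0 := by
    intro h
    apply hII
    have h1 : q.coeff (II b).natDegree = 0 := by rw [h]; simp
    rw [hq, coeff_map, coeff_natDegree] at h1
    rw [← ZMod.intCast_zmod_eq_zero_iff_dvd]
    simpa using h1
  have key2 : ∀ r : (ZMod p)[X], r.natDegree ≤ m + 1 → r.coeff (m + 1) = 0 →
      (∀ i, r.eval (d i : ZMod p) = 0) → r = 0 := by
    intro r h1 h2 h3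
    refine eq_zero_of_natDegree_lt_card_of_eval_eq_zero r hinj h3 ?_
    rw [Fintype.card_fin]
    refine lt_of_le_of_ne h1 fun h4 => ?_
    have h5 : r = 0 := by
      rw [← leadingCoeff_eq_zero, leadingCoeff, h4, h2]
    rw [h5] at h4
    simp at h4
  refine ⟨fun h => hq0 (key2 q hqdeg ?_ hroot), ?_⟩
  · rw [hq, coeff_map, coeff_II_top]
    rw [← ZMod.intCast_zmod_eq_zero_iff_dvd] at h
    simpa using h
  · have hprod : (∏ i, (X - C (d i : ZMod p))).natDegree = m + 1 := by
      rw [natDegree_prod_of_monic _ _ fun i _ => monic_X_sub_C _]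
      simp only [natDegree_X_sub_C]
      simp
    have hmon : (∏ i, (X - C (d i : ZMod p))).Monic := monic_prod_of_monic _ _ fun i _ => monic_X_sub_C _
    have h1 := key2 (q - C ((cc b (Fin.last (m + 1)) : ℤ) : ZMod p) * ∏ i, (X - C (d i : ZMod p)))
      (by
        refine le_trans (natDegree_sub_le _ _) (max_le hqdeg ?_)
        refine le_trans (natDegree_C_mul_le _ _) ?_
        rw [hprod])
      (by
        rw [coeff_sub, hq, coeff_map, coeff_II_top, coeff_C_mul]
        have := hmon.coeff_natDegree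
        rw [hprod] at this
        rw [this]
        simp)
      (by
        intro i
        rw [eval_sub, hroot i, eval_mul, eval_prod, prod_eq_zero (mem_univ i)]
        · simp
        · simp)
    have h2 := congrArg (fun r => r.coeff m) h1
    simp only [coeff_zero] at h2
    rw [coeff_sub, hq, coeff_map, coeff_II_next, coeff_C_mul] at h2
    have h3 := Polynomial.prod_X_sub_C_coeff_card_pred (univ : Finset (Fin (m + 1)))
      (fun i => (d i : ZMod p)) (by simp)
    simp only [card_univ, Fintype.card_fin, Nat.add_sub_cancel] at h3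
    rw [h3] at h2
    rw [← ZMod.intCast_zmod_eq_zero_iff_dvd]
    push_cast
    simp only [eq_intCast] at h2
    push_cast at h2
    linear_combination h2

end poly

section exchange

variable {F : Type} [Field F] {n : ℕ}

/-- The exchange argument. -/
lemma exchange (K : Submodule F F[X]) : ∀ (N : ℕ) (y : Fin n → F[X]), LinearIndependent F y →
    (∀ i, y i ∈ K) → ∑ i, (y i).natDegree = N →
    ∃ z : Fin n → F[X], (∀ i, z i ≠ 0) ∧ (Function.Injective fun i => (z i).natDegree) ∧
      (∀ i, z i ∈ K) ∧ ∑ i, (z i).natDegree ≤ N := by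
  classical
  intro N
  induction N using Nat.strong_induction_on with
  | _ N ih =>
    intro y hy hK hN
    by_cases hinj : Function.Injective fun i => (y i).natDegree
    · exact ⟨y, fun i => hy.ne_zero i, hinj, hK, hN.le⟩
    · have h1 : ∃ i j, (y i).natDegree = (y j).natDegree ∧ i ≠ j := by
        by_contra h
        push Not at h
        exact hinj fun i j hij => h i j hij
      obtain ⟨i, j, hij, hne⟩ := h1
      set c : F := (y j).leadingCoeff / (y i).leadingCoeff with hc
      have hyi : y i ≠ 0 := hy.ne_zero i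
      have hyj : y j ≠ 0 := hy.ne_zero j
      have hli : (y i).leadingCoeff ≠ 0 := leadingCoeff_ne_zero.2 hyi
      have hlj : (y j).leadingCoeff ≠ 0 := leadingCoeff_ne_zero.2 hyj
      have hc0 : c ≠ 0 := div_ne_zero hlj hli
      set w : F[X] := y j - c • y i with hw
      set z : Fin n → F[X] := Function.update y j w with hz
      have hsum : ∀ g : Fin n → F, ∑ k, g k • z k =
          ∑ k, (g k - if k = i then g j * c else 0) • y k := by
        intro g
        have h2 : ∀ k, g k • z k = g k • y k - if k = j then (g j * c) • y i else 0 := by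
          intro k
          by_cases hk : k = j
          · subst hk
            rw [hz, Function.update_self, hw, if_pos rfl, smul_sub, smul_smul]
          · rw [hz, Function.update_of_ne hk, if_neg hk, sub_zero]
        rw [sum_congr rfl fun k _ => h2 k, sum_sub_distrib, sum_ite_eq' univ j, if_pos (mem_univ _)]
        have h3 : ∀ k, (g k - if k = i then g j * c else 0) • y k =
            g k • y k - if k = i then (g j * c) • y i else 0 := by
          intro k
          by_cases hk : k = i
          · subst hk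
            rw [if_pos rfl, if_pos rfl, sub_smul]
          · rw [if_neg hk, if_neg hk, sub_zero, sub_zero]
        rw [sum_congr rfl fun k _ => h3 k, sum_sub_distrib, sum_ite_eq' univ i, if_pos (mem_univ _)]
      have hzind : LinearIndependent F z := by
        rw [Fintype.linearIndependent_iff]
        intro g hg
        rw [hsum] at hg
        have h4 := Fintype.linearIndependent_iff.1 hy _ hg
        have h5 : g j = 0 := by
          have := h4 j
          rwa [if_neg (Ne.symm hne), sub_zero] at this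
        intro k
        have := h4 k
        rw [h5, zero_mul, ite_self, sub_zero] at this
        exact this
      have hw0 : w ≠ 0 := by
        have := hzind.ne_zero j
        rwa [hz, Function.update_self] at this
      have hdeg : w.natDegree < (y j).natDegree := by
        apply natDegree_lt_natDegree hw0
        have h6 : (c • y i).natDegree = (y i).natDegree := by
          rw [natDegree_smul _ hc0]
        have h7 : c • y i ≠ 0 := smul_ne_zero hc0 hyi
        refine degree_sub_lt_left ?_ hyj ?_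
        · rw [degree_eq_natDegree hyj, degree_eq_natDegree h7, h6, hij]
        · rw [smul_eq_C_mul, leadingCoeff_mul, leadingCoeff_C, hc, div_mul_cancel₀ _ hli]
      have hzK : ∀ k, z k ∈ K := by
        intro k
        by_cases hk : k = j
        · subst hk
          rw [hz, Function.update_self]
          exact K.sub_mem (hK _) (K.smul_mem _ (hK _))
        · rw [hz, Function.update_of_ne hk]
          exact hK k
      have hlt : ∑ k, (z k).natDegree < N := by
        rw [← hN]
        refine sum_lt_sum (fun k _ => ?_) ⟨j, mem_univ _, ?_⟩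
        · by_cases hk : k = j
          · subst hk
            rw [hz, Function.update_self]
            exact hdeg.le
          · rw [hz, Function.update_of_ne hk]
        · rw [hz, Function.update_self]
          exact hdeg
      obtain ⟨z', h8, h9, h10, h11⟩ := ih _ hlt z hzind hzK rfl
      exact ⟨z', h8, h9, h10, h11.trans hlt.le⟩

lemma linearIndependent_of_natDegree (z : Fin n → F[X]) (h0 : ∀ i, z i ≠ 0)
    (hinj : Function.Injective fun i => (z i).natDegree) : LinearIndependent F z := by
  classical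
  rw [Fintype.linearIndependent_iff]
  intro g hg
  by_contra h
  push Not at h
  have hne : (univ.filter fun i => g i ≠ 0).Nonempty := by
    obtain ⟨i, hi⟩ := h
    exact ⟨i, by simpa using hi⟩
  obtain ⟨i, hi, hmax⟩ := Finset.exists_max_image _ (fun i => (z i).natDegree) hne
  have hi' : g i ≠ 0 := by simpa using hi
  have h1 := congrArg (fun q => q.coeff (z i).natDegree) hg
  simp only [finsetSum_coeff, coeff_zero, coeff_smul, smul_eq_mul] at h1
  rw [sum_eq_single i] at h1
  · rcases mul_eq_zero.1 h1 with h2 | h2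
    · exact hi' h2
    · exact h0 i (leadingCoeff_eq_zero.1 h2)
  · intro k _ hk
    by_cases hgk : g k = 0
    · rw [hgk, zero_mul]
    · have h3 : (z k).natDegree ≤ (z i).natDegree := hmax k (by simpa using hgk)
      have h4 : (z k).natDegree < (z i).natDegree :=
        lt_of_le_of_ne h3 fun h5 => hk (hinj h5)
      rw [coeff_eq_zero_of_natDegree_lt h4, mul_zero]
  · intro h5
    exact absurd (mem_univ _) h5

end exchange

section lift

variable {n : ℕ} (b : Fin (n + 1) → ℤ[X])

lemma app_sum_range {R : Type} [CommRing R] (y : R[X]) (d : ℕ) (hd : y.natDegree ≤ d) :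
    app R b y = ∑ k ∈ range (d + 1), C (y.coeff k) * app R b (X ^ k) := by
  conv_lhs => rw [y.as_sum_range' (d + 1) (Nat.lt_succ_of_le hd)]
  rw [← appL_apply, map_sum]
  refine sum_congr rfl fun k _ => ?_
  rw [← C_mul_X_pow_eq_monomial, ← smul_eq_C_mul, LinearMap.map_smul, smul_eq_C_mul, appL_apply]

/-- The lifting lemma: if for infinitely many primes the reductions have a solution of degree `d`,
there is a rational one. -/
lemma lift (d : ℕ) (h : {p : ℕ | ∃ _ : Fact p.Prime, ∃ z : (ZMod p)[X], z ≠ 0 ∧ z.natDegree = d ∧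
    app (ZMod p) b z = 0}.Infinite) :
    ∃ w : ℚ[X], w ≠ 0 ∧ w.natDegree = d ∧ app ℚ b w = 0 := by
  classical
  by_cases hmem : app ℚ b (X ^ d) ∈ Submodule.map (appL (R := ℚ) b) (degreeLT ℚ d)
  · obtain ⟨g, hg, hg2⟩ := hmem
    have hg' : g.degree < d := mem_degreeLT.1 hg
    have h1 : (X ^ d - g).degree = (d : WithBot ℕ) := by
      rw [degree_sub_eq_left_of_degree_lt, degree_X_pow]
      rwa [degree_X_pow]
    refine ⟨X ^ d - g, ?_, natDegree_eq_of_degree_eq_some h1, ?_⟩
    · intro h0
      rw [h0, degree_zero] at h1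
      exact absurd h1 (by simp)
    · rw [← appL_apply, map_sub, hg2, appL_apply, sub_self]
  · exfalso
    obtain ⟨φ, hφ1, hφ2⟩ := Submodule.exists_le_ker_of_notMem hmem
    set P : ℕ → ℤ[X] := fun k => app ℤ b (X ^ k) with hP
    have hPmap : ∀ (S : Type) [CommRing S] (k : ℕ), app S b (X ^ k) = (P k).map (Int.castRingHom S) := by
      intro S _ k
      rw [hP]
      simp only
      rw [← app_map b (Int.castRingHom S) (X ^ k)]
      simp
    set N : ℕ := (range (d + 1)).sup fun k => (P k).natDegree with hN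
    have hNk : ∀ k ∈ range (d + 1), (P k).natDegree ≤ N := fun k hk =>
      Finset.le_sup (f := fun k => (P k).natDegree) hk
    obtain ⟨D, hD⟩ := IsLocalization.exist_integer_multiples (nonZeroDivisors ℤ) (range (N + 1))
      (fun j => φ (X ^ j))
    have hD0 : (D : ℤ) ≠ 0 := nonZeroDivisors.ne_zero D.2
    choose! α hα using hD
    have hα' : ∀ j ∈ range (N + 1), (α j : ℚ) = (D : ℤ) * φ (X ^ j) := by
      intro j hj
      have := hα j hj
      simpa using this
    have hφsum : ∀ f : ℤ[X], f.natDegree ≤ N →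
        ((∑ j ∈ range (N + 1), f.coeff j * α j : ℤ) : ℚ) =
          (D : ℤ) * φ (f.map (Int.castRingHom ℚ)) := by
      intro f hf
      have h2 : (f.map (Int.castRingHom ℚ)).natDegree < N + 1 :=
        Nat.lt_succ_of_le (le_trans natDegree_map_le hf)
      conv_rhs => rw [(f.map (Int.castRingHom ℚ)).as_sum_range' (N + 1) h2]
      rw [map_sum, mul_sum, Int.cast_sum]
      refine sum_congr rfl fun j hj => ?_
      rw [← C_mul_X_pow_eq_monomial, ← smul_eq_C_mul, LinearMap.map_smul, Int.cast_mul, hα' j hj]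
      simp only [coeff_map, eq_intCast, smul_eq_mul]
      ring
    have hψ0 : ∀ k ∈ range d, ∑ j ∈ range (N + 1), (P k).coeff j * α j = 0 := by
      intro k hk
      have h3 := hφsum (P k) (hNk k (mem_range.2 (lt_trans (mem_range.1 hk) (Nat.lt_succ_self d))))
      rw [← hPmap ℚ k] at h3
      have h4 : φ (app ℚ b (X ^ k)) = 0 := by
        have h5 : appL (R := ℚ) b (X ^ k) ∈ Submodule.map (appL (R := ℚ) b) (degreeLT ℚ d) := by
          refine Submodule.mem_map_of_mem (mem_degreeLT.2 ?_)
          rw [degree_X_pow]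
          exact_mod_cast mem_range.1 hk
        exact hφ2 h5
      rw [h4, mul_zero] at h3
      exact_mod_cast h3
    set ψ : ℤ := ∑ j ∈ range (N + 1), (P d).coeff j * α j with hψ
    have hψd : ψ ≠ 0 := by
      intro h0
      have h3 := hφsum (P d) (hNk d (mem_range.2 (Nat.lt_succ_self d)))
      rw [← hψ, h0, ← hPmap ℚ d] at h3
      have h4 := (mul_eq_zero.1 h3.symm).resolve_left (by exact_mod_cast hD0)
      exact hφ1 h4
    obtain ⟨p, ⟨hp, z, hz0, hzd, hz⟩, hpN⟩ := h.exists_gt ψ.natAbs
    rw [app_sum_range b z d hzd.le] at hz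
    have h6 : ∀ j, ∑ k ∈ range (d + 1), z.coeff k * (((P k).coeff j : ℤ) : ZMod p) = 0 := by
      intro j
      have := congrArg (fun q => q.coeff j) hz
      simp only [finsetSum_coeff, coeff_C_mul, coeff_zero] at this
      rw [← this]
      refine sum_congr rfl fun k _ => ?_
      rw [hPmap (ZMod p) k, coeff_map]
      simp
    have h7 : ∑ k ∈ range (d + 1), z.coeff k *
        ((∑ j ∈ range (N + 1), (P k).coeff j * α j : ℤ) : ZMod p) = 0 := by
      have h8 : ∑ j ∈ range (N + 1), (α j : ZMod p) *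
          ∑ k ∈ range (d + 1), z.coeff k * (((P k).coeff j : ℤ) : ZMod p) = 0 :=
        sum_eq_zero fun j _ => by rw [h6 j, mul_zero]
      rw [← h8]
      simp_rw [mul_sum, Int.cast_sum, mul_sum]
      rw [sum_comm]
      refine sum_congr rfl fun j _ => sum_congr rfl fun k _ => ?_
      push_cast
      ring
    rw [sum_range_succ, sum_eq_zero, zero_add] at h7
    · rw [← hψ] at h7
      have h9 : z.coeff d ≠ 0 := by
        rw [← hzd]
        exact leadingCoeff_ne_zero.2 hz0
      have h10 := (mul_eq_zero.1 h7).resolve_left h9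
      rw [ZMod.intCast_zmod_eq_zero_iff_dvd] at h10
      have h11 := Int.natAbs_dvd_natAbs.2 h10
      rw [Int.natAbs_natCast] at h11
      have h12 := Nat.le_of_dvd (Int.natAbs_pos.2 hψd) h11
      omega
    · intro k hk
      rw [hψ0 k hk]
      simp

end lift

section main

/-- The sum `s` of the exponents at infinity (the degrees of a basis of polynomial solutions have the
sum `s`), `s = n (n - 1) / 2 - β / α`, where `α` is the leading coefficient of `b n`, of degree `e`, and
`β` is the coefficient of `x ^ (e - 1)` in `b (n - 1)` (of `x ^ 0` if `e = 0`). -/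
noncomputable def expSum {m : ℕ} (b : Fin (m + 1 + 1) → ℤ[X]) : ℚ :=
  ((m : ℚ) + 1) * m / 2 -
    ((b (Fin.last m).castSucc).coeff ((b (Fin.last (m + 1))).natDegree - 1) : ℚ) /
      (b (Fin.last (m + 1))).leadingCoeff

/-- The reduction of `∑ b k ∂ ^ k` modulo `p` has `n` linearly independent polynomial solutions whose
degrees have the sum `D`. -/
def HasBasis {n : ℕ} (b : Fin (n + 1) → ℤ[X]) (p D : ℕ) : Prop :=
  ∃ y : Fin n → (ZMod p)[X], LinearIndependent (ZMod p) y ∧ (∀ i, app (ZMod p) b (y i) = 0) ∧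
    ∑ i, (y i).natDegree = D

variable {m : ℕ} (b : Fin (m + 1 + 1) → ℤ[X])

lemma cc_top (h : cc b (Fin.last (m + 1)) ≠ 0) :
    EE b = (b (Fin.last (m + 1))).natDegree ∧
      cc b (Fin.last (m + 1)) = (b (Fin.last (m + 1))).leadingCoeff := by
  have h0 : b (Fin.last (m + 1)) ≠ 0 := by
    intro h1
    apply h
    unfold cc
    rw [h1]
    simp
  have h1 := natDegree_le_EE b _ h0
  have h2 : EE b ≤ (b (Fin.last (m + 1))).natDegree := by
    unfold cc at h
    simp only [Fin.val_last, Nat.sub_self, pow_zero, mul_one] at h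
    exact le_natDegree_of_ne_zero h
  have h3 : EE b = (b (Fin.last (m + 1))).natDegree := le_antisymm h2 (le_trans (by simp) h1)
  refine ⟨h3, ?_⟩
  unfold cc
  rw [h3]
  simp

lemma cc_next (h : cc b (Fin.last (m + 1)) ≠ 0) :
    cc b (Fin.last m).castSucc =
      (b (Fin.last m).castSucc).coeff ((b (Fin.last (m + 1))).natDegree - 1) := by
  have h1 := (cc_top b h).1
  by_cases hb : b (Fin.last m).castSucc = 0
  · unfold cc
    rw [hb]
    simp
  · have h2 := natDegree_le_EE b _ hb
    simp only [Fin.val_castSucc, Fin.val_last] at h2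
    have h3 : m + 1 - m = 1 := by omega
    unfold cc
    rw [h1]
    simp only [Fin.val_castSucc, Fin.val_last, h3, pow_one]
    rw [h3, h1] at h2
    obtain ⟨e, he⟩ : ∃ e, (b (Fin.last (m + 1))).natDegree = e + 1 :=
      ⟨(b (Fin.last (m + 1))).natDegree - 1, by omega⟩
    rw [he, coeff_mul_X, Nat.add_sub_cancel]

/-- For large primes: distinct degrees and the congruence. -/
lemma congr_degrees (hb : b (Fin.last (m + 1)) ≠ 0) :
    ∃ N : ℕ, ∀ p : ℕ, N < p → ∀ _ : Fact p.Prime, ∀ D : ℕ, D < p → HasBasis b p D →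
      ∃ d : Fin (m + 1) → ℕ, Function.Injective d ∧
        (∀ i, ∃ z : (ZMod p)[X], z ≠ 0 ∧ z.natDegree = d i ∧ app (ZMod p) b z = 0) ∧
        ∑ i, d i ≤ D ∧
        (p : ℤ) ∣ (expSum b).den * ((∑ i, d i : ℕ) : ℤ) - (expSum b).num := by
  have hII := II_ne_zero b hb
  refine ⟨(II b).leadingCoeff.natAbs + (expSum b).den, ?_⟩
  intro p hpN hp D hD hB
  obtain ⟨y, hy, hy2, hy3⟩ := hB
  obtain ⟨z, hz0, hzinj, hzK, hzD⟩ := exchange (LinearMap.ker (appL (R := ZMod p) b)) D y hy
    (fun i => LinearMap.mem_ker.2 (hy2 i)) hy3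
  have hzsol : ∀ i, app (ZMod p) b (z i) = 0 := fun i => LinearMap.mem_ker.1 (hzK i)
  refine ⟨fun i => (z i).natDegree, hzinj, fun i => ⟨z i, hz0 i, rfl, hzsol i⟩, hzD, ?_⟩
  have hlt : ∀ i, (z i).natDegree < p := by
    intro i
    have h1 : (z i).natDegree ≤ ∑ i, (z i).natDegree :=
      single_le_sum (f := fun i => (z i).natDegree) (fun _ _ => Nat.zero_le _) (mem_univ i)
    omega
  have hlc : ¬ (p : ℤ) ∣ (II b).leadingCoeff := by
    intro h
    have h1 := Int.natAbs_dvd_natAbs.2 h
    rw [Int.natAbs_natCast] at h1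
    have h2 := Nat.le_of_dvd (Int.natAbs_pos.2 (leadingCoeff_ne_zero.2 hII)) h1
    omega
  obtain ⟨hk1, hk2⟩ := key b hp hlc (fun i => (z i).natDegree) hzinj hlt
    (fun i => indicial b hp (z i) (hz0 i) (hzsol i))
  have hcc : cc b (Fin.last (m + 1)) ≠ 0 := by
    intro h
    rw [h] at hk1
    exact hk1 (dvd_zero _)
  have h3 := (cc_top b hcc).2
  have h4 := cc_next b hcc
  set α := cc b (Fin.last (m + 1)) with hα
  set β := cc b (Fin.last m).castSucc with hβ
  have hT : ((∑ j ∈ range (m + 1), (j : ℤ) : ℤ) : ℚ) = ((m : ℚ) + 1) * m / 2 := by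
    have h5 := Finset.sum_range_id_mul_two (m + 1)
    have h6 : ((∑ j ∈ range (m + 1), j : ℕ) : ℚ) * 2 = ((m + 1 : ℕ) : ℚ) * ((m + 1 - 1 : ℕ) : ℚ) := by
      exact_mod_cast h5
    simp only [Nat.add_sub_cancel] at h6
    push_cast at h6 ⊢
    linarith
  have hs : (α : ℚ) * expSum b = α * (∑ j ∈ range (m + 1), (j : ℤ) : ℤ) - β := by
    have hα0 : (α : ℚ) ≠ 0 := by exact_mod_cast hcc
    unfold expSum
    rw [← h4, ← h3, hT]
    field_simp
  have hs2 : (α : ℚ) * (expSum b).num =
      (expSum b).den * (α * (∑ j ∈ range (m + 1), (j : ℤ) : ℤ) - β) := by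
    rw [← hs]
    have h7 : ((expSum b).num : ℚ) = expSum b * (expSum b).den := (Rat.mul_den_eq_num _).symm
    rw [h7]
    ring
  have hs3 : α * (expSum b).num =
      (expSum b).den * (α * (∑ j ∈ range (m + 1), (j : ℤ)) - β) := by
    exact_mod_cast hs2
  have h8 : (p : ℤ) ∣ α * ((expSum b).den * ((∑ i, (z i).natDegree : ℕ) : ℤ) - (expSum b).num) := by
    have h9 : α * ((expSum b).den * ((∑ i, (z i).natDegree : ℕ) : ℤ) - (expSum b).num) =
        (expSum b).den * (α * ((∑ i, (z i).natDegree : ℕ) : ℤ) + β -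
          α * ∑ j ∈ range (m + 1), (j : ℤ)) := by
      linear_combination -hs3
    rw [h9]
    exact Dvd.dvd.mul_left hk2 _
  exact ((Nat.prime_iff_prime_int.1 hp.out).dvd_or_dvd h8).resolve_left hk1

/-- Lifting of a basis with bounded total degree. -/
lemma lift_bounded (S : ℕ) (h : {p : ℕ | ∃ _ : Fact p.Prime, ∃ d : Fin (m + 1) → ℕ,
      Function.Injective d ∧
        (∀ i, ∃ z : (ZMod p)[X], z ≠ 0 ∧ z.natDegree = d i ∧ app (ZMod p) b z = 0) ∧
        ∑ i, d i ≤ S}.Infinite) :
    ∃ y : Fin (m + 1) → ℚ[X], (∀ i, y i ≠ 0) ∧ (Function.Injective fun i => (y i).natDegree) ∧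
      ∀ i, app ℚ b (y i) = 0 := by
  classical
  set A : Finset (Fin (m + 1) → ℕ) := Fintype.piFinset fun _ => range (S + 1) with hA
  have h1 : ∃ d ∈ A, {p : ℕ | ∃ _ : Fact p.Prime, Function.Injective d ∧
        (∀ i, ∃ z : (ZMod p)[X], z ≠ 0 ∧ z.natDegree = d i ∧ app (ZMod p) b z = 0)}.Infinite := by
    by_contra hcon
    push Not at hcon
    refine h ((A.finite_toSet.biUnion fun d hd => hcon d hd).subset ?_)
    rintro p ⟨hp, d, hd1, hd2, hd3⟩
    refine Set.mem_biUnion (x := d) ?_ ⟨hp, hd1, hd2⟩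
    rw [Finset.mem_coe, hA, Fintype.mem_piFinset]
    intro i
    have h2 : d i ≤ ∑ i, d i := single_le_sum (f := d) (fun _ _ => Nat.zero_le _) (mem_univ i)
    rw [mem_range]
    omega
  obtain ⟨d, _, hd⟩ := h1
  have hinj : Function.Injective d := by
    obtain ⟨p, hp⟩ := hd.nonempty
    exact hp.2.1
  have h3 : ∀ i, ∃ w : ℚ[X], w ≠ 0 ∧ w.natDegree = d i ∧ app ℚ b w = 0 := by
    intro i
    apply lift b (d i)
    refine hd.mono ?_
    rintro p ⟨hp, _, hp2⟩
    exact ⟨hp, hp2 i⟩
  choose w hw0 hwd hw using h3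
  refine ⟨w, hw0, ?_, hw⟩
  intro i j hij
  simp only [hwd] at hij
  exact hinj hij

end main

section final

variable {m : ℕ} (b : Fin (m + 1 + 1) → ℤ[X])

/-- Reduction of a rational basis. -/
lemma reduce (h : ∃ y : Fin (m + 1) → ℚ[X], LinearIndependent ℚ y ∧ ∀ i, app ℚ b (y i) = 0) :
    ∃ S N : ℕ, ∀ p : ℕ, N < p → p.Prime → ∃ D, D ≤ S ∧ HasBasis b p D := by
  classical
  obtain ⟨y, hy, hy2⟩ := h
  obtain ⟨z, hz0, hzinj, hzK, -⟩ := exchange (LinearMap.ker (appL (R := ℚ) b)) _ y hy
    (fun i => LinearMap.mem_ker.2 (hy2 i)) rfl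
  have h1 : ∀ i, ∃ w : ℤ[X], w ≠ 0 ∧ w.natDegree = (z i).natDegree ∧ app ℤ b w = 0 := by
    intro i
    obtain ⟨c, hcm, hc⟩ := IsLocalization.integerNormalization_spec (nonZeroDivisors ℤ) (z i)
    have hc0 : ((c : ℤ) : ℚ) ≠ 0 := by exact_mod_cast nonZeroDivisors.ne_zero hcm
    set w := IsLocalization.integerNormalization (nonZeroDivisors ℤ) (z i) with hw
    have hc' : w.map (Int.castRingHom ℚ) = ((c : ℤ) : ℚ) • z i := by
      rw [Int.cast_smul_eq_zsmul]
      exact hc
    have hinj : Function.Injective (Int.castRingHom ℚ) := Int.cast_injective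
    refine ⟨w, ?_, ?_, ?_⟩
    · intro h0
      rw [h0, Polynomial.map_zero] at hc'
      exact (smul_ne_zero hc0 (hz0 i)) hc'.symm
    · rw [← natDegree_map_eq_of_injective hinj, hc', natDegree_smul _ hc0]
    · apply Polynomial.map_injective _ hinj
      have h9 : app ℚ b (z i) = 0 := LinearMap.mem_ker.1 (hzK i)
      rw [← app_map, hc', app_smul, h9]
      simp
  choose w hw0 hwd hw using h1
  refine ⟨∑ i, (w i).natDegree, ∏ i, (w i).leadingCoeff.natAbs, ?_⟩
  intro p hpN hp
  have : Fact p.Prime := ⟨hp⟩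
  have hlc : ∀ i, ((w i).leadingCoeff : ZMod p) ≠ 0 := by
    intro i h2
    rw [ZMod.intCast_zmod_eq_zero_iff_dvd] at h2
    have h3 := Int.natAbs_dvd_natAbs.2 h2
    rw [Int.natAbs_natCast] at h3
    have h4 : p ∣ ∏ i, (w i).leadingCoeff.natAbs :=
      h3.trans (Finset.dvd_prod_of_mem (fun i => (w i).leadingCoeff.natAbs) (mem_univ i))
    have h5 : 0 < ∏ i, (w i).leadingCoeff.natAbs :=
      Finset.prod_pos fun i _ => Int.natAbs_pos.2 (leadingCoeff_ne_zero.2 (hw0 i))
    have h6 := Nat.le_of_dvd h5 h4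
    omega
  have hdeg : ∀ i, ((w i).map (Int.castRingHom (ZMod p))).natDegree = (w i).natDegree := fun i =>
    natDegree_map_of_leadingCoeff_ne_zero _ (by simpa using hlc i)
  refine ⟨∑ i, (w i).natDegree, le_rfl, fun i => (w i).map (Int.castRingHom (ZMod p)), ?_, ?_, ?_⟩
  · apply linearIndependent_of_natDegree
    · intro i h7
      apply hlc i
      have h8 := congrArg (fun q => q.coeff (w i).natDegree) h7
      simpa using h8
    · intro i j hij
      simp only [hdeg, hwd] at hij
      exact hzinj hij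
  · intro i
    rw [app_map, hw i, Polynomial.map_zero]
  · exact sum_congr rfl fun i _ => hdeg i

lemma of_infinite (hb : b (Fin.last (m + 1)) ≠ 0)
    (h : {p : ℕ | p.Prime ∧ ∃ D, HasBasis b p D ∧
      (expSum b).den * D + (expSum b).num.natAbs < p}.Infinite) :
    ∃ y : Fin (m + 1) → ℚ[X], LinearIndependent ℚ y ∧ ∀ i, app ℚ b (y i) = 0 := by
  obtain ⟨N, hN⟩ := congr_degrees b hb
  obtain ⟨y, hy1, hy2, hy3⟩ := lift_bounded b (expSum b).num.natAbs (by
    refine (h.sdiff (Set.finite_Iic N)).mono ?_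
    rintro p ⟨⟨hp, D, hB, hD⟩, hpN⟩
    have hpN' : N < p := by simpa using hpN
    have hv := (expSum b).den_pos
    have hDp : D < p := by
      have := Nat.le_mul_of_pos_left D hv
      omega
    obtain ⟨d, hd1, hd2, hd3, hd4⟩ := hN p hpN' ⟨hp⟩ D hDp hB
    refine ⟨⟨hp⟩, d, hd1, hd2, ?_⟩
    have h1 : (expSum b).den * (∑ i, d i) ≤ (expSum b).den * D := Nat.mul_le_mul_left _ hd3
    have h2 : ((expSum b).den : ℤ) * ((∑ i, d i : ℕ) : ℤ) - (expSum b).num = 0 := by
      apply Int.eq_zero_of_abs_lt_dvd hd4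
      have h3 : |((expSum b).den : ℤ) * ((∑ i, d i : ℕ) : ℤ) - (expSum b).num| ≤
          |((expSum b).den : ℤ) * ((∑ i, d i : ℕ) : ℤ)| + |(expSum b).num| := abs_sub _ _
      have h4 : |((expSum b).den : ℤ) * ((∑ i, d i : ℕ) : ℤ)| =
          (((expSum b).den * ∑ i, d i : ℕ) : ℤ) := by
        rw [abs_of_nonneg (by positivity)]
        push_cast
        ring
      rw [h4, Int.abs_eq_natAbs (expSum b).num] at h3
      have h5 : (((expSum b).den * ∑ i, d i : ℕ) : ℤ) + ((expSum b).num.natAbs : ℤ) < p := by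
        have : (expSum b).den * (∑ i, d i) + (expSum b).num.natAbs < p := by omega
        exact_mod_cast this
      omega
    have h6 : ((∑ i, d i : ℕ) : ℤ) ≤ ((expSum b).den : ℤ) * ((∑ i, d i : ℕ) : ℤ) := by
      have h7 : (1 : ℤ) ≤ (expSum b).den := by exact_mod_cast hv
      nlinarith [Int.natCast_nonneg (∑ i, d i)]
    omega)
  exact ⟨y, linearIndependent_of_natDegree y hy1 hy2, hy3⟩

lemma of_half (hb : b (Fin.last (m + 1)) ≠ 0)
    (h : ∃ ε : ℝ, 0 < ε ∧ ∃ N : ℕ, ∀ p : ℕ, N < p → p.Prime →
      ∃ D, HasBasis b p D ∧ (D : ℝ) ≤ (1 / 2 - ε) * p) :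
    ∃ y : Fin (m + 1) → ℚ[X], LinearIndependent ℚ y ∧ ∀ i, app ℚ b (y i) = 0 := by
  obtain ⟨ε, hε, N, hN⟩ := h
  obtain ⟨N₀, hN₀⟩ := congr_degrees b hb
  set u : ℤ := (expSum b).num with hu
  set v : ℕ := (expSum b).den with hv
  have hv0 : 0 < v := (expSum b).den_pos
  have : NeZero v := ⟨hv0.ne'⟩
  obtain ⟨M₁, hM₁⟩ := exists_nat_gt (|(u : ℝ)| / (v * ε))
  obtain ⟨M₂, hM₂⟩ := exists_nat_gt |(u : ℝ)|
  have hvR : (1 : ℝ) ≤ v := by exact_mod_cast hv0
  have hA : ∀ p : ℕ, N + N₀ + M₁ + M₂ < p → ∀ hp : p.Prime, ∃ k : ℤ, 0 ≤ k ∧ 2 * k < v ∧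
      ∃ d : Fin (m + 1) → ℕ, Function.Injective d ∧
        (∀ i, ∃ z : (ZMod p)[X], z ≠ 0 ∧ z.natDegree = d i ∧ app (ZMod p) b z = 0) ∧
        (v : ℤ) * ((∑ i, d i : ℕ) : ℤ) - u = p * k := by
    intro p hpM hp
    obtain ⟨D, hB, hD⟩ := hN p (by omega) hp
    have hp0 : (0 : ℝ) < p := by exact_mod_cast hp.pos
    have hDp : D < p := by
      have h1 : (D : ℝ) < p := by nlinarith
      exact_mod_cast h1
    obtain ⟨d, hd1, hd2, hd3, k, hk⟩ := hN₀ p (by omega) ⟨hp⟩ D hDp hB
    have hkR : (v : ℝ) * ((∑ i, d i : ℕ) : ℝ) - u = p * k := by exact_mod_cast hk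
    have hσ : ((∑ i, d i : ℕ) : ℝ) ≤ (1 / 2 - ε) * p := le_trans (by exact_mod_cast hd3) hD
    have hσ0 : (0 : ℝ) ≤ ((∑ i, d i : ℕ) : ℝ) := Nat.cast_nonneg _
    have hM₁p : (M₁ : ℝ) ≤ p := by
      have : M₁ ≤ p := by omega
      exact_mod_cast this
    have hM₂p : (M₂ : ℝ) ≤ p := by
      have : M₂ ≤ p := by omega
      exact_mod_cast this
    have hub : |(u : ℝ)| < v * ε * p := by
      have h2 : |(u : ℝ)| / (v * ε) < p := lt_of_lt_of_le hM₁ hM₁p
      rw [div_lt_iff₀ (by positivity)] at h2
      linarith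
    have hub2 : |(u : ℝ)| < p := lt_of_lt_of_le hM₂ hM₂p
    have hu1 := abs_le.1 (le_refl |(u : ℝ)|)
    refine ⟨k, ?_, ?_, d, hd1, hd2, hk⟩
    · by_contra hneg
      push Not at hneg
      have h3 : (k : ℝ) ≤ -1 := by
        have : k ≤ -1 := by omega
        exact_mod_cast this
      have h4 : (p : ℝ) * k ≤ -p := by nlinarith
      have h5 : (0 : ℝ) ≤ v * ((∑ i, d i : ℕ) : ℝ) := by positivity
      linarith [hu1.2]
    · have h6 : (v : ℝ) * ((∑ i, d i : ℕ) : ℝ) ≤ v * ((1 / 2 - ε) * p) :=
        mul_le_mul_of_nonneg_left hσ (by positivity)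
      have h7 : (p : ℝ) * (2 * k) < p * v := by
        have h8 : (p : ℝ) * (2 * k) = 2 * (v * ((∑ i, d i : ℕ) : ℝ) - u) := by rw [hkR]; ring
        rw [h8]
        nlinarith [hu1.1]
      have h9 := lt_of_mul_lt_mul_left h7 hp0.le
      exact_mod_cast h9
  have hdvd : ∀ (p : ℕ) (c : ℤ), (p : ZMod v) = (c : ZMod v) → (v : ℤ) ∣ p - c := by
    intro p c hpc
    rw [← ZMod.intCast_zmod_eq_zero_iff_dvd]
    push_cast
    rw [hpc, sub_self]
  obtain ⟨q, hqM, hq, hq1⟩ := Nat.forall_exists_prime_gt_and_eq_mod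
    (a := (-1 : ZMod v)) isUnit_one.neg (N + N₀ + M₁ + M₂)
  obtain ⟨l, hl0, hl2, e, -, -, hl⟩ := hA q hqM hq
  have hq2 := hdvd q (-1) (by simpa using hq1)
  obtain ⟨y, hy1, hy2, hy3⟩ := lift_bounded b u.natAbs (by
    refine ((Nat.infinite_setOfPred_prime_and_eq_mod (q := v) isUnit_one).sdiff
      (Set.finite_Iic (N + N₀ + M₁ + M₂))).mono ?_
    rintro p ⟨⟨hp, hp1⟩, hpN⟩
    have hpN' : N + N₀ + M₁ + M₂ < p := by simpa using hpN
    have hp2 := hdvd p 1 (by simpa using hp1)
    obtain ⟨k, hk0, hk2, d, hd1, hd2, hk⟩ := hA p hpN' hp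
    refine ⟨⟨hp⟩, d, hd1, hd2, ?_⟩
    have h10 : (v : ℤ) ∣ k + l := by
      obtain ⟨a₁, ha₁⟩ := hp2
      obtain ⟨a₂, ha₂⟩ := hq2
      refine ⟨((∑ i, d i : ℕ) : ℤ) - ((∑ i, e i : ℕ) : ℤ) - a₁ * k + a₂ * l, ?_⟩
      linear_combination -hk + hl - k * ha₁ + l * ha₂
    have h11 : k + l = 0 := Int.eq_zero_of_abs_lt_dvd h10 (by rw [abs_of_nonneg (by omega)]; omega)
    have h12 : k = 0 := by omega
    rw [h12, mul_zero] at hk
    have h6 : ((∑ i, d i : ℕ) : ℤ) ≤ (v : ℤ) * ((∑ i, d i : ℕ) : ℤ) := by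
      have h7 : (1 : ℤ) ≤ v := by exact_mod_cast hv0
      nlinarith [Int.natCast_nonneg (∑ i, d i)]
    omega)
  exact ⟨y, linearIndependent_of_natDegree y hy1 hy2, hy3⟩

end final

section example1

/-- The operator `2 x ∂ + 1`, with the solution `x ^ (-1 / 2)`. -/
noncomputable def bex : Fin (0 + 1 + 1) → ℤ[X] := ![1, C 2 * X]

lemma expSum_bex : expSum bex = -1 / 2 := by
  have h1 : (bex (Fin.last (0 + 1))) = C 2 * X := rfl
  have h2 : bex (Fin.last 0).castSucc = 1 := rfl
  have h3 : (C (2 : ℤ) * X : ℤ[X]).natDegree = 1 := natDegree_C_mul_X 2 (by norm_num)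
  have h4 : (C (2 : ℤ) * X : ℤ[X]).leadingCoeff = 2 := by
    rw [leadingCoeff, h3]
    simp
  unfold expSum
  rw [h1, h2, h3, h4]
  norm_num

lemma app_bex {R : Type} [CommRing R] (y : R[X]) : app R bex y = y + 2 * X * derivative y := by
  unfold app
  rw [Fin.sum_univ_succ]
  simp [bex]

lemma hasBasis_bex (p : ℕ) (hp : p.Prime) (h2 : p ≠ 2) : HasBasis bex p ((p - 1) / 2) := by
  have : Fact p.Prime := ⟨hp⟩
  obtain ⟨k, hk⟩ := hp.odd_of_ne_two h2
  have hk' : (p - 1) / 2 = k := by omega
  rw [hk']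
  refine ⟨fun _ => X ^ k, ?_, ?_, ?_⟩
  · rw [linearIndependent_unique_iff]
    exact pow_ne_zero _ X_ne_zero
  · intro i
    rw [app_bex, derivative_X_pow]
    have hkp : (2 : (ZMod p)[X]) * (k : (ZMod p)[X]) + 1 = 0 := by
      have h3 : ((p : ℕ) : (ZMod p)[X]) = 0 := CharP.cast_eq_zero _ p
      have h4 : ((p : ℕ) : (ZMod p)[X]) = ((2 * k + 1 : ℕ) : (ZMod p)[X]) :=
        congrArg (fun t : ℕ => (t : (ZMod p)[X])) hk
      rw [h3] at h4
      push_cast at h4
      exact h4.symm
    have h5 : (X : (ZMod p)[X]) * (C (k : ZMod p) * X ^ (k - 1)) = (k : (ZMod p)[X]) * X ^ k := by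
      rcases Nat.eq_zero_or_pos k with h6 | h6
      · subst h6
        simp
      · have h7 : (X : (ZMod p)[X]) ^ k = X ^ (k - 1) * X := by
          rw [← pow_succ, Nat.sub_add_cancel h6]
        rw [h7]
        simp only [map_natCast]
        ring
    rw [mul_assoc, h5]
    linear_combination hkp * X ^ k
  · simp

lemma no_solution_bex (y : ℚ[X]) (h : app ℚ bex y = 0) : y = 0 := by
  by_contra hy
  rw [app_bex] at h
  have h1 := congrArg (fun q => q.coeff y.natDegree) h
  simp only [coeff_add, coeff_zero] at h1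
  have h2 : ((2 : ℚ[X]) * X * derivative y).coeff y.natDegree = 2 * y.natDegree * y.leadingCoeff := by
    have h3 := coeff_X_pow_mul_iterate y 1 y.natDegree
    simp only [pow_one, Function.iterate_one, Nat.descFactorial_one, coeff_natDegree] at h3
    rw [mul_assoc, show (2 : ℚ[X]) = C 2 from rfl, coeff_C_mul, h3]
    ring
  rw [h2, coeff_natDegree] at h1
  have h4 : (2 * (y.natDegree : ℚ) + 1) * y.leadingCoeff = 0 := by linarith
  rcases mul_eq_zero.1 h4 with h5 | h5
  · have : (0 : ℚ) ≤ y.natDegree := Nat.cast_nonneg _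
    linarith
  · exact hy (leadingCoeff_eq_zero.1 h5)

end example1

section example2

/-- The operator `x ^ 2 ∂ ^ 2 + x ∂ + 1`, with the solutions `x ^ i` and `x ^ (-i)`, `i ^ 2 = -1`. -/
noncomputable def bex2 : Fin (1 + 1 + 1) → ℤ[X] := ![1, X, X ^ 2]

lemma app_bex2 {R : Type} [CommRing R] (y : R[X]) :
    app R bex2 y = y + X ^ 1 * derivative^[1] y + X ^ 2 * derivative^[2] y := by
  unfold app
  rw [Fin.sum_univ_succ, Fin.sum_univ_succ, Fin.sum_univ_succ]
  simp [bex2]
  ring

lemma expSum_bex2 : expSum bex2 = 0 := by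
  have h1 : (bex2 (Fin.last (1 + 1))) = X ^ 2 := rfl
  have h2 : bex2 (Fin.last 1).castSucc = X := rfl
  unfold expSum
  rw [h1, h2]
  norm_num

lemma app_bex2_pow {p : ℕ} (k : ℕ) (hk : (k : ZMod p) ^ 2 = -1) : app (ZMod p) bex2 (X ^ k) = 0 := by
  ext j
  rw [app_bex2, coeff_add, coeff_add, coeff_X_pow_mul_iterate, coeff_X_pow_mul_iterate, coeff_zero,
    coeff_X_pow]
  split_ifs with h
  · rw [h, Nat.cast_descFactorial_two, Nat.descFactorial_one]
    linear_combination hk
  · simp

lemma hasBasis_bex2 (p : ℕ) (hp : p.Prime) (h4 : p % 4 = 1) : HasBasis bex2 p p := by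
  have : Fact p.Prime := ⟨hp⟩
  obtain ⟨r, hr⟩ := ZMod.exists_sq_eq_neg_one_iff (p := p) |>.2 (by omega)
  have hr' : r ^ 2 = -1 := by rw [hr]; ring
  set k := r.val with hk
  have hkr : (k : ZMod p) = r := ZMod.natCast_zmod_val r
  have hkp : k < p := ZMod.val_lt r
  have h1 : (k : ZMod p) ^ 2 = -1 := by rw [hkr, hr']
  have h2 : ((p - k : ℕ) : ZMod p) ^ 2 = -1 := by
    rw [Nat.cast_sub hkp.le, ZMod.natCast_self, zero_sub, neg_sq, h1]
  have h0 : ∀ i : Fin 2, (![X ^ k, X ^ (p - k)] : Fin 2 → (ZMod p)[X]) i ≠ 0 := by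
    intro i
    fin_cases i
    · exact pow_ne_zero _ X_ne_zero
    · exact pow_ne_zero _ X_ne_zero
  refine ⟨![X ^ k, X ^ (p - k)], linearIndependent_of_natDegree _ h0 ?_, ?_, ?_⟩
  · intro i j hij
    fin_cases i <;> fin_cases j <;> simp at hij ⊢ <;> omega
  · intro i
    fin_cases i
    · exact app_bex2_pow k h1
    · exact app_bex2_pow (p - k) h2
  · rw [Fin.sum_univ_two]
    simp
    omega

lemma no_solution_bex2 (y : ℚ[X]) (h : app ℚ bex2 y = 0) : y = 0 := by
  by_contra hy
  rw [app_bex2] at h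
  have h1 := congrArg (fun q => q.coeff y.natDegree) h
  simp only [coeff_add, coeff_zero] at h1
  rw [coeff_X_pow_mul_iterate, coeff_X_pow_mul_iterate, Nat.cast_descFactorial_two,
    Nat.descFactorial_one, coeff_natDegree] at h1
  have h4 : ((y.natDegree : ℚ) ^ 2 + 1) * y.leadingCoeff = 0 := by linear_combination h1
  rcases mul_eq_zero.1 h4 with h5 | h5
  · have : (0 : ℚ) ≤ (y.natDegree : ℚ) ^ 2 := sq_nonneg _
    linarith
  · exact hy (leadingCoeff_eq_zero.1 h5)

end example2

/-- **Operators whose reductions have bases of polynomial solutions of small total degree.**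

Let `L = ∑ b k ∂ ^ k`, `k ≤ n = m + 1`, be any differential operator of order `n ≥ 1` with coefficients
in `ℤ[x]` (irregular singularities, irrational exponents and reducible operators are allowed). Let
`s = expSum b = u / v` in lowest terms; it depends on the two top coefficients of `b n` and `b (n - 1)`
only. The following are equivalent.

* (1) `L` has `n` linearly independent polynomial solutions over `ℚ`.
* (2) There is a number `S` such that for all large primes `p` the reduction modulo `p` has `n` linearly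
  independent polynomial solutions whose degrees have a sum at most `S`.
* (3) For infinitely many primes `p` the reduction modulo `p` has `n` linearly independent polynomial
  solutions whose degrees have a sum `D` with `v D + |u| < p`, that is `D < (p - |u|) / v`.
* (4) For some `ε > 0` and for all large primes `p` the reduction modulo `p` has `n` linearly independent
  polynomial solutions whose degrees have a sum `D ≤ (1 / 2 - ε) p`.

The bounds in (3) and (4) are the best possible ones, and in (3) also for integral `s`: there is an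
operator of order one without nonzero polynomial solutions over `ℚ` such that for all odd primes there
is a solution modulo `p` of a degree `D` with `v D + |u| = p` and `D < p / 2`; and there is an operator
of order two with `s = 0`, without nonzero polynomial solutions over `ℚ`, such that for infinitely many
primes there is a basis of solutions modulo `p` with total degree `p`. -/
theorem result :
    (∀ (m : ℕ) (b : Fin (m + 1 + 1) → ℤ[X]), b (Fin.last (m + 1)) ≠ 0 →
      List.TFAE [
        ∃ y : Fin (m + 1) → ℚ[X], LinearIndependent ℚ y ∧ ∀ i, app ℚ b (y i) = 0,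
        ∃ S N : ℕ, ∀ p : ℕ, N < p → p.Prime → ∃ D, D ≤ S ∧ HasBasis b p D,
        {p : ℕ | p.Prime ∧ ∃ D, HasBasis b p D ∧
          (expSum b).den * D + (expSum b).num.natAbs < p}.Infinite,
        ∃ ε : ℝ, 0 < ε ∧ ∃ N : ℕ, ∀ p : ℕ, N < p → p.Prime →
          ∃ D, HasBasis b p D ∧ (D : ℝ) ≤ (1 / 2 - ε) * p]) ∧
    (∃ b : Fin (0 + 1 + 1) → ℤ[X], b (Fin.last (0 + 1)) ≠ 0 ∧
      (∀ p : ℕ, p.Prime → p ≠ 2 → ∃ D, HasBasis b p D ∧
        (expSum b).den * D + (expSum b).num.natAbs = p ∧ (D : ℝ) < 1 / 2 * p) ∧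
      ∀ y : ℚ[X], app ℚ b y = 0 → y = 0) ∧
    (∃ b : Fin (1 + 1 + 1) → ℤ[X], b (Fin.last (1 + 1)) ≠ 0 ∧ expSum b = 0 ∧
      {p : ℕ | p.Prime ∧ HasBasis b p p}.Infinite ∧
      ∀ y : ℚ[X], app ℚ b y = 0 → y = 0) := by
  refine ⟨fun m b hb => ?_, ⟨bex, ?_, ?_, no_solution_bex⟩,
    ⟨bex2, pow_ne_zero 2 X_ne_zero, expSum_bex2, ?_, no_solution_bex2⟩⟩
  · tfae_have 1 → 2 := reduce b
    tfae_have 2 → 3 := by
      rintro ⟨S, N, h⟩
      refine (Nat.infinite_setOfPred_prime.sdiff
        (Set.finite_Iic (N + (expSum b).den * S + (expSum b).num.natAbs))).mono ?_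
      rintro p ⟨hp, hpN⟩
      have hpN' : N + (expSum b).den * S + (expSum b).num.natAbs < p := by simpa using hpN
      obtain ⟨D, hD, hB⟩ := h p (by omega) hp
      refine ⟨hp, D, hB, ?_⟩
      have := Nat.mul_le_mul_left (expSum b).den hD
      omega
    tfae_have 3 → 1 := of_infinite b hb
    tfae_have 2 → 4 := by
      rintro ⟨S, N, h⟩
      refine ⟨1 / 4, by norm_num, N + 4 * S, fun p hpN hp => ?_⟩
      obtain ⟨D, hD, hB⟩ := h p (by omega) hp
      refine ⟨D, hB, ?_⟩
      have h1 : 4 * D ≤ p := by omega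
      have h2 : (4 : ℝ) * D ≤ p := by exact_mod_cast h1
      linarith
    tfae_have 4 → 1 := of_half b hb
    tfae_finish
  · intro h
    have h1 : (C (2 : ℤ) * X : ℤ[X]) = 0 := h
    have h3 : (C (2 : ℤ) * X : ℤ[X]).natDegree = 1 := natDegree_C_mul_X 2 (by norm_num)
    rw [h1] at h3
    simp at h3
  · intro p hp hp2
    refine ⟨(p - 1) / 2, hasBasis_bex p hp hp2, ?_, ?_⟩
    · rw [expSum_bex]
      have h1 : ((-1 / 2 : ℚ)).den = 2 := by
        norm_num
      have h2 : ((-1 / 2 : ℚ)).num = -1 := by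
        norm_num
      rw [h1, h2]
      obtain ⟨k, hk⟩ := hp.odd_of_ne_two hp2
      simp only [Int.natAbs_neg, Int.natAbs_one]
      omega
    · obtain ⟨k, hk⟩ := hp.odd_of_ne_two hp2
      have h3 : (p - 1) / 2 = k := by omega
      rw [h3, hk]
      push_cast
      linarith
  · refine (Nat.infinite_setOfPred_prime_and_eq_mod (q := 4) (a := 1) isUnit_one).mono ?_
    rintro p ⟨hp, hp1⟩
    refine ⟨hp, hasBasis_bex2 p hp ?_⟩
    have h1 : ((p : ℕ) : ZMod 4) = ((1 : ℕ) : ZMod 4) := by simpa using hp1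
    rw [ZMod.natCast_eq_natCast_iff] at h1
    exact h1

end Pool.Agent.Results.MP_aa40d3_nt.SmallDegreeBases
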