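import Mathlib
import Pool.Agent.Helper827_pc.Gap
import Pool.Agent.Results.MP_aa40d3_nt.SmallDegreeBases

set_option autoImplicit false

/-!
# Solutions modulo `p` of small degree

If the reductions modulo infinitely many primes `p` of an operator of order `n` have `m` linearly
independent polynomial solutions of degrees less than `c p ^ (1 / (n - m + 1))`, the operator has `m`
linearly independent polynomial solutions over `ℚ`.

Proof. After an exchange the degrees are different. They are zeros modulo `p` of the indicial polynomial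
`I` at infinity, so that the divided difference of `I` at the `m` degrees `d i` is divisible by `p`. It is a
polynomial of degree `deg I - m + 1 ≤ n - m + 1` in the `d i`, and its leading form is a multiple of the
complete homogeneous symmetric polynomial, so that it is positive and less than `p` if the largest `d i`
is large and less than `c p ^ (1 / (n - m + 1))`. So the degrees are bounded; then solutions over `ℚ` with
the same degrees exist, by duality (`SmallDegreeBases.lift`).
-/

namespace Pool.Agent.Results.MP_aa40d3_nt.SmallDegreeSolutions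

open Polynomial Finset
open Pool.Agent.Helper827_pc
open Pool.Agent.Results.MP_aa40d3_nt.SmallDegreeBases

variable {n : ℕ} (b : Fin (n + 1) → ℤ[X])

/-- The operator `∑ b k ∂ ^ k`, reduced to the commutative ring `R`, applied to the polynomial `y`. -/
noncomputable def val {n : ℕ} (R : Type) [CommRing R] (b : Fin (n + 1) → ℤ[X]) (y : R[X]) : R[X] :=
  ∑ k : Fin (n + 1), (b k).map (Int.castRingHom R) * derivative^[(k : ℕ)] y

/-- The reduction modulo `p` has `m` linearly independent polynomial solutions of degree at most `D`. -/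
def HasSols {n : ℕ} (b : Fin (n + 1) → ℤ[X]) (p m D : ℕ) : Prop :=
  ∃ y : Fin m → (ZMod p)[X], LinearIndependent (ZMod p) y ∧
    ∀ i, val (ZMod p) b (y i) = 0 ∧ (y i).natDegree ≤ D

lemma val_eq (R : Type) [CommRing R] (y : R[X]) : val R b y = app R b y := rfl

/-- Solutions with distinct degrees. -/
lemma distinct {p m D : ℕ} (hp : Fact p.Prime) (h : HasSols b p m D) :
    ∃ z : Fin m → (ZMod p)[X], (∀ i, z i ≠ 0) ∧ (Function.Injective fun i => (z i).natDegree) ∧
      ∀ i, app (ZMod p) b (z i) = 0 ∧ (z i).natDegree ≤ D := by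
  obtain ⟨y, hy, hy2⟩ := h
  obtain ⟨z, hz0, hzinj, hzK, -⟩ := exchange
    (LinearMap.ker (appL (R := ZMod p) b) ⊓ degreeLE (ZMod p) D) _ y hy
    (fun i => ⟨LinearMap.mem_ker.2 (hy2 i).1, mem_degreeLE.2 (natDegree_le_iff_degree_le.1 (hy2 i).2)⟩)
    rfl
  exact ⟨z, hz0, hzinj, fun i => ⟨LinearMap.mem_ker.1 (hzK i).1,
    natDegree_le_iff_degree_le.2 (mem_degreeLE.1 (hzK i).2)⟩⟩

/-- Lifting of solutions of bounded degree. -/
lemma lift_bounded' (m B : ℕ) (h : {p : ℕ | ∃ _ : Fact p.Prime, HasSols b p m B}.Infinite) :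
    ∃ y : Fin m → ℚ[X], (∀ i, y i ≠ 0) ∧ (Function.Injective fun i => (y i).natDegree) ∧
      ∀ i, app ℚ b (y i) = 0 := by
  classical
  set A : Finset (Fin m → ℕ) := Fintype.piFinset fun _ => range (B + 1) with hA
  have h1 : ∃ d ∈ A, {p : ℕ | ∃ _ : Fact p.Prime, Function.Injective d ∧
        (∀ i, ∃ z : (ZMod p)[X], z ≠ 0 ∧ z.natDegree = d i ∧ app (ZMod p) b z = 0)}.Infinite := by
    by_contra hcon
    push Not at hcon
    refine h ((A.finite_toSet.biUnion fun d hd => hcon d hd).subset ?_)
    rintro p ⟨hp, hB⟩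
    obtain ⟨z, hz0, hzinj, hz⟩ := distinct b hp hB
    refine Set.mem_biUnion (x := fun i => (z i).natDegree) ?_
      ⟨hp, hzinj, fun i => ⟨z i, hz0 i, rfl, (hz i).1⟩⟩
    rw [Finset.mem_coe, hA, Fintype.mem_piFinset]
    intro i
    have := (hz i).2
    rw [mem_range]
    omega
  obtain ⟨d, _, hd⟩ := h1
  have hinj : Function.Injective d := by
    obtain ⟨p, hp⟩ := hd.nonempty
    exact hp.2.1
  have h3 : ∀ i, ∃ w : ℚ[X], w ≠ 0 ∧ w.natDegree = d i ∧ app ℚ b w = 0 := by
    intro i
    apply lift b (d i)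
    refine hd.mono ?_
    rintro p ⟨hp, _, hp2⟩
    exact ⟨hp, hp2 i⟩
  choose w hw0 hwd hw using h3
  refine ⟨w, hw0, ?_, hw⟩
  intro i j hij
  simp only [hwd] at hij
  exact hinj hij

/-- Reduction. -/
lemma reduce' (m : ℕ) (h : ∃ y : Fin m → ℚ[X], LinearIndependent ℚ y ∧ ∀ i, app ℚ b (y i) = 0) :
    ∃ B N : ℕ, ∀ p : ℕ, N < p → p.Prime → HasSols b p m B := by
  classical
  obtain ⟨y, hy, hy2⟩ := h
  obtain ⟨z, hz0, hzinj, hzK, -⟩ := exchange (LinearMap.ker (appL (R := ℚ) b)) _ y hy
    (fun i => LinearMap.mem_ker.2 (hy2 i)) rfl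
  have h1 : ∀ i, ∃ w : ℤ[X], w ≠ 0 ∧ w.natDegree = (z i).natDegree ∧ app ℤ b w = 0 := by
    intro i
    obtain ⟨c, hcm, hc⟩ := IsLocalization.integerNormalization_spec (nonZeroDivisors ℤ) (z i)
    have hc0 : ((c : ℤ) : ℚ) ≠ 0 := by exact_mod_cast nonZeroDivisors.ne_zero hcm
    set w := IsLocalization.integerNormalization (nonZeroDivisors ℤ) (z i) with hw
    have hc' : w.map (Int.castRingHom ℚ) = ((c : ℤ) : ℚ) • z i := by
      rw [Int.cast_smul_eq_zsmul]
      exact hc
    have hinj : Function.Injective (Int.castRingHom ℚ) := Int.cast_injective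
    refine ⟨w, ?_, ?_, ?_⟩
    · intro h0
      rw [h0, Polynomial.map_zero] at hc'
      exact (smul_ne_zero hc0 (hz0 i)) hc'.symm
    · rw [← natDegree_map_eq_of_injective hinj, hc', natDegree_smul _ hc0]
    · apply Polynomial.map_injective _ hinj
      have h9 : app ℚ b (z i) = 0 := LinearMap.mem_ker.1 (hzK i)
      rw [← app_map, hc', app_smul, h9]
      simp
  choose w hw0 hwd hw using h1
  refine ⟨∑ i, (w i).natDegree, ∏ i, (w i).leadingCoeff.natAbs, ?_⟩
  intro p hpN hp
  have : Fact p.Prime := ⟨hp⟩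
  have hlc : ∀ i, ((w i).leadingCoeff : ZMod p) ≠ 0 := by
    intro i h2
    rw [ZMod.intCast_zmod_eq_zero_iff_dvd] at h2
    have h3 := Int.natAbs_dvd_natAbs.2 h2
    rw [Int.natAbs_natCast] at h3
    have h4 : p ∣ ∏ i, (w i).leadingCoeff.natAbs :=
      h3.trans (Finset.dvd_prod_of_mem (fun i => (w i).leadingCoeff.natAbs) (mem_univ i))
    have h5 : 0 < ∏ i, (w i).leadingCoeff.natAbs :=
      Finset.prod_pos fun i _ => Int.natAbs_pos.2 (leadingCoeff_ne_zero.2 (hw0 i))
    have h6 := Nat.le_of_dvd h5 h4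
    omega
  have hdeg : ∀ i, ((w i).map (Int.castRingHom (ZMod p))).natDegree = (w i).natDegree := fun i =>
    natDegree_map_of_leadingCoeff_ne_zero _ (by simpa using hlc i)
  refine ⟨fun i => (w i).map (Int.castRingHom (ZMod p)), ?_, fun i => ⟨?_, ?_⟩⟩
  · apply linearIndependent_of_natDegree
    · intro i h7
      apply hlc i
      have h8 := congrArg (fun q => q.coeff (w i).natDegree) h7
      simpa using h8
    · intro i j hij
      simp only [hdeg, hwd] at hij
      exact hzinj hij
  · rw [val_eq, app_map, hw i, Polynomial.map_zero]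
  · rw [hdeg]
    exact single_le_sum (f := fun i => (w i).natDegree) (fun _ _ => Nat.zero_le _) (mem_univ i)

/-- The gap for the degrees. -/
lemma degrees_gap (hb : b (Fin.last n) ≠ 0) (m : ℕ) (hm : 1 ≤ m) :
    ∃ B C : ℕ, ∀ p : ℕ, B < p → p.Prime → ∀ D : ℕ, HasSols b p m D → D < p →
      C * D ^ (n - m + 1) < p → HasSols b p m B := by
  classical
  have hII := II_ne_zero b hb
  by_cases hmK : m ≤ (II b).natDegree
  · obtain ⟨B, C, hgap⟩ := gap (II b) hII (m - 1) (by omega)
    refine ⟨B, C + 1, ?_⟩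
    intro p hpB hp D hS hDp hC
    obtain ⟨z, hz0, hzinj, hz⟩ := distinct b ⟨hp⟩ hS
    refine ⟨z, ?_, fun i => ⟨(hz i).1, ?_⟩⟩
    · have : Fact p.Prime := ⟨hp⟩
      exact linearIndependent_of_natDegree z hz0 hzinj
    have hne : (univ.image fun i => (z i).natDegree).Nonempty := by
      refine ⟨(z ⟨0, by omega⟩).natDegree, mem_image_of_mem _ (mem_univ _)⟩
    set T := univ.image fun i => (z i).natDegree with hT
    set D' := T.max' hne with hD'
    have hD'T : D' ∈ T := T.max'_mem hne
    have hcard : T.card = m := by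
      rw [hT, card_image_of_injective _ hzinj, card_univ, Fintype.card_fin]
    have hroot : ∀ d ∈ T, (p : ℤ) ∣ (II b).eval (d : ℤ) := by
      intro d hd
      rw [hT, mem_image] at hd
      obtain ⟨i, _, rfl⟩ := hd
      have h1 := indicial b ⟨hp⟩ (z i) (hz0 i) (hz i).1
      have h4 : (((z i).natDegree : ℕ) : ZMod p) =
          Int.castRingHom (ZMod p) ((z i).natDegree : ℤ) := by simp
      rw [h4, eval_map, eval₂_at_apply] at h1
      rw [← ZMod.intCast_zmod_eq_zero_iff_dvd]
      simpa using h1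
    have hD'D : D' ≤ D := by
      rw [hT, mem_image] at hD'T
      obtain ⟨i, _, hi⟩ := hD'T
      rw [← hi]
      exact (hz i).2
    rcases hgap p hp D' (by omega) (T.erase D') (by rw [card_erase_of_mem hD'T, hcard])
      (fun d hd => lt_of_le_of_ne (T.le_max' d (mem_of_mem_erase hd)) (ne_of_mem_erase hd))
      (hroot D' hD'T) (fun d hd => hroot d (mem_of_mem_erase hd)) with h2 | h2
    · exact le_trans (T.le_max' _ (mem_image_of_mem _ (mem_univ i))) h2
    · rcases Nat.eq_zero_or_pos D' with h0 | h0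
      · have h3 : (z i).natDegree ≤ D' :=
          T.le_max' _ (mem_image_of_mem (fun i => (z i).natDegree) (mem_univ i))
        omega
      · exfalso
        have h3 : D' ^ ((II b).natDegree - (m - 1)) ≤ D ^ (n - m + 1) := by
          have h4 := natDegree_II b
          calc D' ^ ((II b).natDegree - (m - 1)) ≤ D' ^ (n - m + 1) :=
                Nat.pow_le_pow_right h0 (by omega)
            _ ≤ D ^ (n - m + 1) := Nat.pow_le_pow_left hD'D _
        have h5 := Nat.mul_le_mul_left C h3
        have h6 : (C + 1) * D ^ (n - m + 1) = C * D ^ (n - m + 1) + D ^ (n - m + 1) := by ring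
        have h7 : C * D' ^ ((II b).natDegree - (m - 1)) ≤ (C + 1) * D ^ (n - m + 1) := by omega
        omega
  · refine ⟨(II b).leadingCoeff.natAbs, 0, ?_⟩
    intro p hpB hp D hS hDp _
    exfalso
    have hpf : Fact p.Prime := ⟨hp⟩
    obtain ⟨z, hz0, hzinj, hz⟩ := distinct b ⟨hp⟩ hS
    have hinj : Function.Injective fun i => ((z i).natDegree : ZMod p) := by
      intro i j hij
      apply hzinj
      have h1 : ((z i).natDegree : ZMod p) = (z j).natDegree := hij
      have h2 := congrArg ZMod.val h1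
      rwa [ZMod.val_natCast_of_lt (lt_of_le_of_lt (hz i).2 hDp),
        ZMod.val_natCast_of_lt (lt_of_le_of_lt (hz j).2 hDp)] at h2
    have h1 : (II b).map (Int.castRingHom (ZMod p)) = 0 := by
      refine eq_zero_of_natDegree_lt_card_of_eval_eq_zero _ hinj
        (fun i => indicial b hpf (z i) (hz0 i) (hz i).1) ?_
      rw [Fintype.card_fin]
      exact lt_of_le_of_lt natDegree_map_le (by omega)
    have h2 : ((II b).map (Int.castRingHom (ZMod p))).coeff (II b).natDegree = 0 := by rw [h1]; simp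
    rw [coeff_map, coeff_natDegree] at h2
    have h3 : (p : ℤ) ∣ (II b).leadingCoeff := by
      rw [← ZMod.intCast_zmod_eq_zero_iff_dvd]
      simpa using h2
    have h4 := Int.natAbs_dvd_natAbs.2 h3
    rw [Int.natAbs_natCast] at h4
    have h5 := Nat.le_of_dvd (Int.natAbs_pos.2 (leadingCoeff_ne_zero.2 hII)) h4
    omega

/-- **Solutions of the reductions of small degree can be lifted.**

Let `L = ∑ b k ∂ ^ k`, `k ≤ n`, be any differential operator of order `n ≥ 1` with coefficients in `ℤ[x]`
(irregular singularities, irrational exponents and reducible operators are allowed). There is a constant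
`C` such that for all `1 ≤ m ≤ n` the following are equivalent.

* (1) `L` has `m` linearly independent polynomial solutions over `ℚ`.
* (2) There is a number `B` such that for all large primes `p` the reduction modulo `p` has `m` linearly
  independent polynomial solutions of degree at most `B`.
* (3) For infinitely many primes `p` there is a number `D` with `C D ^ (n - m + 1) < p` such that the
  reduction modulo `p` has `m` linearly independent polynomial solutions of degree at most `D`. -/
theorem result {n : ℕ} (b : Fin (n + 1) → ℤ[X]) (hb : b (Fin.last n) ≠ 0) :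
    ∃ C : ℕ, ∀ m : ℕ, 1 ≤ m → m ≤ n → List.TFAE [
      ∃ y : Fin m → ℚ[X], LinearIndependent ℚ y ∧ ∀ i, val ℚ b (y i) = 0,
      ∃ B N : ℕ, ∀ p : ℕ, N < p → p.Prime → HasSols b p m B,
      {p : ℕ | p.Prime ∧ ∃ D, HasSols b p m D ∧ C * D ^ (n - m + 1) < p}.Infinite] := by
  have h0 : ∀ m : ℕ, ∃ BC : ℕ × ℕ, 1 ≤ m → ∀ p : ℕ, BC.1 < p → p.Prime → ∀ D : ℕ, HasSols b p m D →
      D < p → BC.2 * D ^ (n - m + 1) < p → HasSols b p m BC.1 := by
    intro m
    by_cases hm : 1 ≤ m
    · obtain ⟨B, C, h⟩ := degrees_gap b hb m hm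
      exact ⟨⟨B, C⟩, fun _ => h⟩
    · exact ⟨⟨0, 0⟩, fun h => absurd h hm⟩
  choose BC h using h0
  refine ⟨∑ m ∈ range (n + 1), (BC m).2 + 1, fun m hm hmn => ?_⟩
  have hC : (BC m).2 + 1 ≤ ∑ m ∈ range (n + 1), (BC m).2 + 1 := by
    have h1 : (BC m).2 ≤ ∑ m ∈ range (n + 1), (BC m).2 :=
      single_le_sum (f := fun m => (BC m).2) (fun _ _ => Nat.zero_le _)
        (mem_range.2 (Nat.lt_succ_of_le hmn))
    omega
  set C := ∑ m ∈ range (n + 1), (BC m).2 + 1 with hCdef
  tfae_have 1 → 2 := reduce' b m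
  tfae_have 2 → 3 := by
    rintro ⟨S, N, h⟩
    refine (Nat.infinite_setOfPred_prime.sdiff
      (Set.finite_Iic (N + C * S ^ (n - m + 1)))).mono ?_
    rintro p ⟨hp, hpN⟩
    have hpN' : N + C * S ^ (n - m + 1) < p := by simpa using hpN
    exact ⟨hp, S, h p (by omega) hp, by omega⟩
  tfae_have 3 → 1 := by
    intro h3
    obtain ⟨y, hy1, hy2, hy3⟩ := lift_bounded' b m (BC m).1 (by
      refine (h3.sdiff (Set.finite_Iic (BC m).1)).mono ?_
      rintro p ⟨⟨hp, D, hS, hD⟩, hpN⟩
      have hpN' : (BC m).1 < p := by simpa using hpN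
      have h4 : D ≤ D ^ (n - m + 1) := Nat.le_self_pow (by omega) D
      have h5 : ((BC m).2 + 1) * D ^ (n - m + 1) ≤ C * D ^ (n - m + 1) :=
        Nat.mul_le_mul_right _ hC
      have h6 : ((BC m).2 + 1) * D ^ (n - m + 1) = (BC m).2 * D ^ (n - m + 1) + D ^ (n - m + 1) := by
        ring
      exact ⟨⟨hp⟩, h m hm p hpN' hp D hS (by omega) (by omega)⟩)
    exact ⟨y, linearIndependent_of_natDegree y hy1 hy2, hy3⟩
  tfae_finish

end Pool.Agent.Results.MP_aa40d3_nt.SmallDegreeSolutions
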